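import Pool.Agent.H76.SF.Stm

set_option autoImplicit false

namespace H33.SF

open H76.SF Finset Classical

theorem pick {V : Type} (S : Finset V) (r : ℕ) (h : r ≤ S.card) :
    ∃ u : Fin r → V, Function.Injective u ∧ ∀ i, u i ∈ S := by
  obtain ⟨S', hS', hc⟩ := Finset.exists_subset_card_eq h
  exact ⟨fun i => ((S'.equivFinOfCardEq hc).symm i : V),
    Subtype.val_injective.comp (Equiv.injective _), fun i => hS' (Subtype.prop _)⟩

theorem t_SPA (hG : S_GRE) : S_SPA := by
  intro V _ G n r q v hr hn hno
  obtain ⟨L, hL, hLc⟩ := Finset.exists_subset_card_eq hn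
  have hv : v ∉ L := fun h => G.irrefl (mem_filter.1 (hL h)).2
  have hc : (insert v L).card = n + 1 := by rw [card_insert_of_notMem hv, hLc]
  refine ⟨(insert v L)ᶜ, ?_, ?_⟩
  · rw [card_compl, hc]
    have := card_le_univ (insert v L)
    omega
  · by_contra hcon
    push Not at hcon
    apply hno
    obtain ⟨u, hu, hum⟩ := pick _ r hcon
    refine hG V G n r q v L u hLc (fun x hx => (mem_filter.1 (hL hx)).2) hu (fun i => ?_)
      (fun i => ?_)
    · have := (mem_filter.1 (hum i)).1
      simp only [mem_compl, mem_insert, not_or] at this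
      exact this
    · refine (mem_filter.1 (hum i)).2.trans (card_le_card ?_)
      intro x hx
      simp only [mem_filter, mem_compl, mem_insert, not_or, mem_univ, true_and] at hx ⊢
      exact ⟨hx.2, hx.1.2, hx.1.1⟩

end H33.SF
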